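import Pool.Agent.N848.OL.Stm
import Pool.Agent.N340.LT.EXP

set_option autoImplicit false
set_option linter.all false

/-!
Project OL (helper848), part EXF (helper664): in the cubic field of discriminant 148 the nontrivial
classes of the units `α ^ a (α - 2) ^ b` modulo fifth powers are not local fifth powers at all the
primes above 5. Everything is computed in the basis `1, α, α ^ 2`.
-/

namespace Pool.Agent.N664.OL.EXF

open NumberField IsDedekindDomain Module Pool.Agent.N848.OL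

/-- product of two elements in the basis `1, α, α ^ 2` -/
def mulT {R : Type} [CommRing R] (x y : R × R × R) : R × R × R :=
  (x.1 * y.1 - (x.2.1 * y.2.2 + x.2.2 * y.2.1) - x.2.2 * y.2.2,
    x.1 * y.2.1 + x.2.1 * y.1 + 3 * (x.2.1 * y.2.2 + x.2.2 * y.2.1) + 2 * (x.2.2 * y.2.2),
    x.1 * y.2.2 + x.2.1 * y.2.1 + x.2.2 * y.1 + (x.2.1 * y.2.2 + x.2.2 * y.2.1) +
      4 * (x.2.2 * y.2.2))

/-- fifth power -/
def p5 {R : Type} [CommRing R] (x : R × R × R) : R × R × R :=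
  mulT (mulT (mulT x x) (mulT x x)) x

/-- square -/
def sqT {R : Type} [CommRing R] (x : R × R × R) : R × R × R := mulT x x

/-- twenty-fourth power -/
def p24 {R : Type} [CommRing R] (x : R × R × R) : R × R × R := sqT (sqT (sqT (mulT (sqT x) x)))

/-- powers -/
def pw {R : Type} [CommRing R] (x : R × R × R) : ℕ → R × R × R
  | 0 => (1, 0, 0)
  | n + 1 => mulT (pw x n) x

/-- the value of a triple -/
def ev {k : Type} [CommRing k] (π : k) (x : ℤ × ℤ × ℤ) : k :=
  (x.1 : k) + (x.2.1 : k) * π + (x.2.2 : k) * π ^ 2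

theorem ev_mul {k : Type} [CommRing k] {π : k} (hπ : π ^ 3 - π ^ 2 - 3 * π + 1 = 0)
    (x y : ℤ × ℤ × ℤ) : ev π (mulT x y) = ev π x * ev π y := by
  unfold ev mulT
  push_cast
  linear_combination (-((x.2.1 : k) * y.2.2 + x.2.2 * y.2.1) - (x.2.2 : k) * y.2.2 * π -
    ((x.2.2 : k) * y.2.2)) * hπ

theorem ev_p5 {k : Type} [CommRing k] {π : k} (hπ : π ^ 3 - π ^ 2 - 3 * π + 1 = 0)
    (x : ℤ × ℤ × ℤ) : ev π (p5 x) = ev π x ^ 5 := by
  unfold p5
  simp only [ev_mul hπ]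
  ring

theorem ev_p24 {k : Type} [CommRing k] {π : k} (hπ : π ^ 3 - π ^ 2 - 3 * π + 1 = 0)
    (x : ℤ × ℤ × ℤ) : ev π (p24 x) = ev π x ^ 24 := by
  unfold p24 sqT
  simp only [ev_mul hπ]
  ring

theorem ev_pw {k : Type} [CommRing k] {π : k} (hπ : π ^ 3 - π ^ 2 - 3 * π + 1 = 0)
    (x : ℤ × ℤ × ℤ) (n : ℕ) : ev π (pw x n) = ev π x ^ n := by
  induction n with
  | zero => simp [pw, ev]
  | succ n ih => rw [pw, ev_mul hπ, ih, pow_succ]

/-- reduction modulo `n` -/
def red (n : ℕ) (x : ℤ × ℤ × ℤ) : ZMod n × ZMod n × ZMod n :=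
  ((x.1 : ZMod n), (x.2.1 : ZMod n), (x.2.2 : ZMod n))

theorem red_mul (n : ℕ) (x y : ℤ × ℤ × ℤ) : red n (mulT x y) = mulT (red n x) (red n y) := by
  unfold red mulT
  push_cast
  rfl

theorem red_p5 (n : ℕ) (x : ℤ × ℤ × ℤ) : red n (p5 x) = p5 (red n x) := by
  unfold p5
  simp only [red_mul]

theorem red_p24 (n : ℕ) (x : ℤ × ℤ × ℤ) : red n (p24 x) = p24 (red n x) := by
  unfold p24 sqT
  simp only [red_mul]

theorem red_pw (n : ℕ) (x : ℤ × ℤ × ℤ) (m : ℕ) : red n (pw x m) = pw (red n x) m := by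
  induction m with
  | zero => simp [pw, red]
  | succ m ih => rw [pw, red_mul, ih, pw]

set_option maxRecDepth 100000 in
theorem check5 : ∀ (a b c : ZMod 5), p5 (p5 (a, b, c)) = (a, b, c) := by
  decide +kernel

/-- `α ^ 24` modulo `25` -/
abbrev A24 : ZMod 25 × ZMod 25 × ZMod 25 := (16, 20, 5)

/-- `(α - 2) ^ 24` modulo `25` -/
abbrev B24 : ZMod 25 × ZMod 25 × ZMod 25 := (21, 20, 10)

set_option maxRecDepth 100000 in
theorem checkA : p24 ((0, 1, 0) : ZMod 25 × ZMod 25 × ZMod 25) = A24 := by decide +kernel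

set_option maxRecDepth 100000 in
theorem checkB : p24 ((-2, 1, 0) : ZMod 25 × ZMod 25 × ZMod 25) = B24 := by decide +kernel

set_option maxRecDepth 100000 in
theorem check25 : ∀ (a b : Fin 5), ¬ (a = 0 ∧ b = 0) →
    mulT (pw A24 a) (pw B24 b) ≠ (1, 0, 0) := by decide +kernel

section val

variable {k : Type} [Field k] [NumberField k] {α : k} (hα : α ^ 3 - α ^ 2 - 3 * α + 1 = 0)

open Pool.Agent.N340.LT.EXP

include hα

theorem ev_zero {x : ℤ × ℤ × ℤ} (hx : ev α x = 0) : x.1 = 0 ∧ x.2.1 = 0 ∧ x.2.2 = 0 := by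
  have li : ∀ g : Fin 3 → ℚ, ∑ i, g i • α ^ (i : ℕ) = 0 → ∀ i, g i = 0 :=
    Fintype.linearIndependent_iff.1 (linInd hα)
  have hs : ∑ i : Fin 3, (![(x.1 : ℚ), (x.2.1 : ℚ), (x.2.2 : ℚ)] : Fin 3 → ℚ) i • α ^ (i : ℕ) = 0 := by
    rw [Fin.sum_univ_three]
    unfold ev at hx
    simp [Algebra.smul_def]
    linear_combination hx
  have h := li _ hs
  refine ⟨?_, ?_, ?_⟩
  · have := h 0
    simpa using this
  · have := h 1
    simpa using this
  · have := h 2
    simpa using this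

/-- integral elements -/
theorem int_span (hk : finrank ℚ k = 3) (z : k) (hz : IsIntegral ℤ z) :
    ∃ m : ℤ × ℤ × ℤ, 148 * z = ev α m := by
  obtain ⟨q0, q1, q2, hq⟩ : ∃ q0 q1 q2 : ℚ, q0 • (1 : k) + q1 • α + q2 • α ^ 2 = z := by
    have h := (bas hα hk).sum_repr z
    rw [Fin.sum_univ_three] at h
    simp only [bas_apply] at h
    refine ⟨(bas hα hk).repr z 0, (bas hα hk).repr z 1, (bas hα hk).repr z 2, ?_⟩
    simpa using h
  have tz : ∀ w : k, IsIntegral ℤ w → ∃ n : ℤ, Algebra.trace ℚ k w = n := fun w hw => by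
    obtain ⟨n, hn⟩ := IsIntegrallyClosed.isIntegral_iff.mp (Algebra.isIntegral_trace (L := ℚ) hw)
    exact ⟨n, by rw [← hn]; simp⟩
  have iα := isInt hα
  obtain ⟨n0, h0⟩ := tz z hz
  obtain ⟨n1, h1⟩ := tz (z * α) (hz.mul iα)
  obtain ⟨n2, h2⟩ := tz (z * α ^ 2) (hz.mul (iα.pow 2))
  have t0 : Algebra.trace ℚ k z = 3 * q0 + q1 + 7 * q2 := by
    rw [← hq, map_add, map_add, map_smul, map_smul, map_smul, tr0 hk, tr1 hα hk, tr2 hα hk]
    simp
    ring
  have t1 : Algebra.trace ℚ k (z * α) = q0 + 7 * q1 + 7 * q2 := by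
    have e : z * α = q0 • α + q1 • α ^ 2 + q2 • α ^ 3 := by
      rw [← hq]
      simp only [Algebra.smul_def]
      ring
    rw [e, map_add, map_add, map_smul, map_smul, map_smul, tr1 hα hk, tr2 hα hk, tr3 hα hk]
    simp
    ring
  have t2 : Algebra.trace ℚ k (z * α ^ 2) = 7 * q0 + 7 * q1 + 27 * q2 := by
    have e : z * α ^ 2 = q0 • α ^ 2 + q1 • α ^ 3 + q2 • α ^ 4 := by
      rw [← hq]
      simp only [Algebra.smul_def]
      ring
    rw [e, map_add, map_add, map_smul, map_smul, map_smul, tr2 hα hk, tr3 hα hk, tr4 hα hk]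
    simp
    ring
  rw [h0] at t0
  rw [h1] at t1
  rw [h2] at t2
  have e0 : (148 : ℚ) * q0 = ((140 * n0 + 22 * n1 - 42 * n2 : ℤ) : ℚ) := by
    push_cast; linarith
  have e1 : (148 : ℚ) * q1 = ((22 * n0 + 32 * n1 - 14 * n2 : ℤ) : ℚ) := by
    push_cast; linarith
  have e2 : (148 : ℚ) * q2 = ((-42 * n0 - 14 * n1 + 20 * n2 : ℤ) : ℚ) := by
    push_cast; linarith
  have f : ∀ (q : ℚ) (n : ℤ), (148 : ℚ) * q = (n : ℚ) → (148 : k) * algebraMap ℚ k q = (n : k) := by
    intro q n h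
    have := congrArg (algebraMap ℚ k) h
    rw [map_mul] at this
    simpa using this
  refine ⟨(140 * n0 + 22 * n1 - 42 * n2, 22 * n0 + 32 * n1 - 14 * n2,
    -42 * n0 - 14 * n1 + 20 * n2), ?_⟩
  unfold ev
  rw [← f _ _ e0, ← f _ _ e1, ← f _ _ e2, ← hq]
  simp only [Algebra.smul_def]
  ring

/-- divisibility of coordinates -/
theorem dvd_of (hk : finrank ℚ k = 3) (z : k) (hz : IsIntegral ℤ z) (T : ℤ × ℤ × ℤ) (n : ℤ)
    (h : ev α T = n * z) : n ∣ 148 * T.1 ∧ n ∣ 148 * T.2.1 ∧ n ∣ 148 * T.2.2 := by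
  obtain ⟨m, hm⟩ := int_span hα hk z hz
  have e : ev α (148 * T.1 - n * m.1, 148 * T.2.1 - n * m.2.1, 148 * T.2.2 - n * m.2.2) = 0 := by
    unfold ev at h hm ⊢
    push_cast
    linear_combination 148 * h + n * hm
  obtain ⟨h0, h1, h2⟩ := ev_zero hα e
  simp only at h0 h1 h2
  exact ⟨⟨m.1, by linarith⟩, ⟨m.2.1, by linarith⟩, ⟨m.2.2, by linarith⟩⟩

/-- `x ^ 25 = x` modulo `5` -/
theorem pow25 (hk : finrank ℚ k = 3) (x : 𝓞 k) : ∃ w : 𝓞 k, x ^ 25 - x = 5 * w := by
  obtain ⟨m, hm⟩ := int_span hα hk (x : k) x.2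
  set a : 𝓞 k := ⟨α, isInt hα⟩ with ha
  have haa : a ^ 3 - a ^ 2 - 3 * a + 1 = 0 := by
    apply RingOfIntegers.coe_injective
    push_cast
    exact hα
  have hm' : 148 * x = ev a m := by
    apply RingOfIntegers.coe_injective
    unfold ev at hm ⊢
    push_cast
    exact hm
  have h1 : (148 * x) ^ 25 = ev a (p5 (p5 m)) := by
    rw [ev_p5 haa, ev_p5 haa, hm', ← pow_mul]
  have h2 : red 5 (p5 (p5 m)) = red 5 m := by
    rw [red_p5, red_p5]
    exact check5 _ _ _
  unfold red at h2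
  simp only [Prod.mk.injEq] at h2
  obtain ⟨g0, g1, g2⟩ := h2
  have key : ∀ x y : ℤ, (x : ZMod 5) = (y : ZMod 5) → ∃ t : ℤ, x = y + 5 * t := fun x y h => by
    have := (ZMod.intCast_eq_intCast_iff_dvd_sub y x 5).1 h.symm
    obtain ⟨t, ht⟩ := this
    exact ⟨t, by push_cast at ht; linarith⟩
  obtain ⟨t0, r0⟩ := key _ _ g0
  obtain ⟨t1, r1⟩ := key _ _ g1
  obtain ⟨t2, r2⟩ := key _ _ g2
  have h3 : ev a (p5 (p5 m)) = ev a m + 5 * ev a (t0, t1, t2) := by
    unfold ev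
    rw [r0, r1, r2]
    push_cast
    ring
  rw [h1.symm.trans h1, h3, ← hm'] at h1
  refine ⟨2 * ev a (t0, t1, t2) - ((2 * 148 ^ 25 - 1) / 5 : ℕ) * x ^ 25 + 59 * x, ?_⟩
  have e5 : (5 : 𝓞 k) * (((2 * 148 ^ 25 - 1) / 5 : ℕ) : 𝓞 k) = 2 * 148 ^ 25 - 1 := by
    have : 5 * ((2 * 148 ^ 25 - 1) / 5 : ℕ) + 1 = 2 * 148 ^ 25 := by norm_num
    have := congrArg (Nat.cast : ℕ → 𝓞 k) this
    push_cast at this
    linear_combination this
  linear_combination 2 * h1 + x ^ 25 * e5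

omit hα in
theorem val_pow_sub (v : HeightOneSpectrum (𝓞 k)) {A : k} (hA : v.valuation k A ≤ 1)
    {c : WithZero (Multiplicative ℤ)} (hc : v.valuation k (A - 1) ≤ c) (n : ℕ) :
    v.valuation k (A ^ n - 1) ≤ c := by
  have h := mul_geom_sum A n
  rw [← h, map_mul]
  refine (mul_le_of_le_one_right' ?_).trans hc
  refine Valuation.map_sum_le _ fun i _ => ?_
  rw [map_pow]
  exact pow_le_one' hA i

omit hα in
theorem val_nat (v : HeightOneSpectrum (𝓞 k)) (n : ℕ) : v.valuation k (n : k) ≤ 1 := by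
  have h : v.valuation k (algebraMap (𝓞 k) k ((n : ℕ) : 𝓞 k)) ≤ 1 := v.valuation_le_one _
  rwa [map_natCast] at h

/-- `y ^ 24 = 1` modulo `5` at a prime above `5` -/
theorem pow24 (hk : finrank ℚ k = 3) (v : HeightOneSpectrum (𝓞 k)) (y : k)
    (hy : v.valuation k y = 1) : v.valuation k (y ^ 24 - 1) ≤ v.valuation k 5 := by
  obtain ⟨n, d, hnd⟩ := v.exists_primeCompl_mul_eq_of_integer (K := k) y hy.le
  have hd : v.valuation k (algebraMap (𝓞 k) k (d : 𝓞 k)) = 1 :=
    (v.valuation_eq_one_iff_notMem (K := k)).2 d.2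
  have hn : v.valuation k (algebraMap (𝓞 k) k n) = 1 := by
    rw [← hnd, map_mul, hy, hd, one_mul]
  have key : ∀ x : 𝓞 k, v.valuation k (algebraMap (𝓞 k) k x) = 1 →
      v.valuation k ((algebraMap (𝓞 k) k x) ^ 24 - 1) ≤ v.valuation k 5 := by
    intro x hx
    obtain ⟨w, hw⟩ := pow25 hα hk x
    have e : (algebraMap (𝓞 k) k x) * ((algebraMap (𝓞 k) k x) ^ 24 - 1) =
        5 * algebraMap (𝓞 k) k w := by
      have := congrArg (algebraMap (𝓞 k) k) hw
      rw [map_sub, map_mul, map_pow, map_ofNat] at this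
      linear_combination this
    have e' := congrArg (v.valuation k) e
    rw [map_mul, map_mul, hx, one_mul] at e'
    rw [e']
    exact mul_le_of_le_one_right' (v.valuation_le_one w)
  have e : (algebraMap (𝓞 k) k (d : 𝓞 k)) ^ 24 * (y ^ 24 - 1) =
      ((algebraMap (𝓞 k) k n) ^ 24 - 1) - ((algebraMap (𝓞 k) k (d : 𝓞 k)) ^ 24 - 1) := by
    rw [← hnd]
    ring
  have e' := congrArg (v.valuation k) e
  rw [map_mul, map_pow, hd, one_pow, one_mul] at e'
  rw [e']
  exact (Valuation.map_sub _ _ _).trans (max_le (key _ hn) (key _ hd))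

/-- the unit is `1` modulo `25` up to the exponent `24` -/
theorem unit24 (hk : finrank ℚ k = 3) (v : HeightOneSpectrum (𝓞 k)) (u : k)
    (hu : v.valuation k u = 1) (h : UnP 5 v u) :
    v.valuation k (u ^ 24 - 1) ≤ v.valuation k (25 : k) := by
  obtain ⟨y, hy1, hy2⟩ := h
  have hy : v.valuation k y = 1 := by
    rw [map_mul, hu, one_mul, map_pow] at hy1
    exact (pow_eq_one_iff_of_nonneg zero_le (by norm_num)).1 hy1
  have h25 : ((5 : ℕ) : k) ^ 2 = 25 := by norm_num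
  rw [h25] at hy2
  have h1 := val_pow_sub v hy1.le hy2 24
  have h2 := pow24 hα hk v y hy
  have h5 : (5 : k) ≠ 0 := by norm_num
  have h3 : v.valuation k ((y ^ 24 - 1) / 5) ≤ 1 := by
    rw [map_div₀]
    exact div_le_one_of_le₀ h2 zero_le
  have h4 : v.valuation k ((y ^ 24) ^ 5 - 1) ≤ v.valuation k (25 : k) := by
    set e := (y ^ 24 - 1) / 5 with he
    have e1 : y ^ 24 = 1 + 5 * e := by
      rw [he]
      field_simp
      ring
    have e2 : (y ^ 24) ^ 5 - 1 = 25 * (e * (1 + 10 * e + 50 * e ^ 2 + 125 * e ^ 3 + 125 * e ^ 4)) := by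
      rw [e1]
      ring
    rw [e2, map_mul, map_mul]
    refine mul_le_of_le_one_right' (mul_le_one' h3 ?_)
    have hn : ∀ (n m : ℕ), v.valuation k ((n : k) * e ^ m) ≤ 1 := fun n m => by
      rw [map_mul, map_pow]
      exact mul_le_one' (val_nat v n) (pow_le_one' h3 m)
    have g : (1 + 10 * e + 50 * e ^ 2 + 125 * e ^ 3 + 125 * e ^ 4) =
        ((1 : ℕ) : k) * e ^ 0 + ((10 : ℕ) : k) * e ^ 1 + ((50 : ℕ) : k) * e ^ 2 +
          ((125 : ℕ) : k) * e ^ 3 + ((125 : ℕ) : k) * e ^ 4 := by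
      push_cast
      ring
    rw [g]
    refine (Valuation.map_add _ _ _).trans (max_le ?_ (hn _ _))
    refine (Valuation.map_add _ _ _).trans (max_le ?_ (hn _ _))
    refine (Valuation.map_add _ _ _).trans (max_le ?_ (hn _ _))
    exact (Valuation.map_add _ _ _).trans (max_le (hn _ _) (hn _ _))
  have e : u ^ 24 - 1 = ((u * y ^ 5) ^ 24 - 1) - u ^ 24 * ((y ^ 24) ^ 5 - 1) := by ring
  rw [e]
  refine (Valuation.map_sub _ _ _).trans (max_le h1 ?_)
  rw [map_mul, map_pow, hu, one_pow, one_mul]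
  exact h4

end val

theorem t_EXF : S_EXF := by
  intro k _ _ α hk hα a b ha hb hab H
  have unit : ∀ (v : HeightOneSpectrum (𝓞 k)) (x y : k), IsIntegral ℤ x → IsIntegral ℤ y →
      x * y = 1 → v.valuation k x = 1 := by
    intro v x y hx hy hxy
    have h1 : v.valuation k x ≤ 1 := v.valuation_le_one (K := k) (⟨x, hx⟩ : 𝓞 k)
    have h2 : v.valuation k y ≤ 1 := v.valuation_le_one (K := k) (⟨y, hy⟩ : 𝓞 k)
    have h3 : v.valuation k x * v.valuation k y = 1 := by rw [← map_mul, hxy, map_one]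
    refine le_antisymm h1 ?_
    rw [← h3]
    exact mul_le_of_le_one_right' h2
  have iα := Pool.Agent.N340.LT.EXP.isInt hα
  have inat : ∀ n : ℕ, IsIntegral ℤ (n : k) := fun n => isIntegral_natCast n
  have i2 : IsIntegral ℤ (2 : k) := by simpa using inat 2
  have i3 : IsIntegral ℤ (3 : k) := by simpa using inat 3
  have i1 : IsIntegral ℤ (1 : k) := isIntegral_one
  have ua : ∀ v : HeightOneSpectrum (𝓞 k), v.valuation k α = 1 := fun v =>
    unit v α (3 + α - α ^ 2) iα ((i3.add iα).sub (iα.pow 2)) (by linear_combination -hα)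
  have ub : ∀ v : HeightOneSpectrum (𝓞 k), v.valuation k (α - 2) = 1 := fun v =>
    unit v (α - 2) (α ^ 2 + α - 1) (iα.sub i2) (((iα.pow 2).add iα).sub i1)
      (by linear_combination hα)
  set u : k := α ^ a * (α - 2) ^ b with hu
  have uu : ∀ v : HeightOneSpectrum (𝓞 k), v.valuation k u = 1 := fun v => by
    rw [hu, map_mul, map_pow, map_pow, ua, ub, one_pow, one_pow, one_mul]
  have hz : IsIntegral ℤ ((u ^ 24 - 1) / 25) := by
    have hr : (u ^ 24 - 1) / 25 ∈ (algebraMap (𝓞 k) k).range := by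
      refine HeightOneSpectrum.mem_integers_of_valuation_le_one k _ fun v => ?_
      rw [map_div₀]
      by_cases h5 : (5 : 𝓞 k) ∈ v.asIdeal
      · exact div_le_one_of_le₀ (unit24 hα hk v u (uu v) (H v h5)) zero_le
      · have h1 : v.valuation k (5 : k) = 1 := by
          have := (v.valuation_eq_one_iff_notMem (K := k) (r := (5 : 𝓞 k))).2 h5
          rwa [map_ofNat] at this
        have h2 : v.valuation k (25 : k) = 1 := by
          have : (25 : k) = 5 ^ 2 := by norm_num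
          rw [this, map_pow, h1, one_pow]
        rw [h2, div_one]
        refine (Valuation.map_sub _ _ _).trans (max_le ?_ ?_)
        · rw [map_pow, uu, one_pow]
        · rw [map_one]
    obtain ⟨z, hz⟩ := hr
    rw [← hz]
    exact z.2
  set T := mulT (pw (p24 ((0, 1, 0) : ℤ × ℤ × ℤ)) a) (pw (p24 (-2, 1, 0)) b) with hT
  have hev : ev α T = u ^ 24 := by
    have f1 : ev α (0, 1, 0) = α := by simp [ev]
    have f2 : ev α (-2, 1, 0) = α - 2 := by simp [ev]; ring
    rw [hT, ev_mul hα, ev_pw hα, ev_pw hα, ev_p24 hα, ev_p24 hα, f1, f2, hu, mul_pow,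
      ← pow_mul, ← pow_mul, ← pow_mul, ← pow_mul, mul_comm 24 a, mul_comm 24 b]
  obtain ⟨d0, d1, d2⟩ := dvd_of hα hk _ hz (T.1 - 1, T.2.1, T.2.2) 25 (by
    have : ev α (T.1 - 1, T.2.1, T.2.2) = ev α T - 1 := by
      unfold ev
      push_cast
      ring
    rw [this, hev]
    push_cast
    field_simp)
  simp only at d0 d1 d2
  have hred : red 25 T = (1, 0, 0) := by
    have key : ∀ x y : ℤ, (25 : ℤ) ∣ 148 * (x - y) → (x : ZMod 25) = (y : ZMod 25) := fun x y h => by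
      have h1 : (25 : ℤ) ∣ x - y := by omega
      have := (ZMod.intCast_eq_intCast_iff_dvd_sub y x 25).2 (by exact_mod_cast h1)
      exact this.symm
    unfold red
    rw [Prod.ext_iff, Prod.ext_iff]
    refine ⟨?_, ?_, ?_⟩
    · have := key T.1 1 d0
      simpa using this
    · have := key T.2.1 0 (by simpa using d1)
      simpa using this
    · have := key T.2.2 0 (by simpa using d2)
      simpa using this
  rw [hT, red_mul, red_pw, red_pw, red_p24, red_p24] at hred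
  have r1 : red 25 (0, 1, 0) = (0, 1, 0) := by simp [red]
  have r2 : red 25 (-2, 1, 0) = (-2, 1, 0) := by simp [red]
  rw [r1, r2, checkA, checkB] at hred
  exact check25 ⟨a, ha⟩ ⟨b, hb⟩ (fun h => hab ⟨congrArg Fin.val h.1, congrArg Fin.val h.2⟩) hred

end Pool.Agent.N664.OL.EXF
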